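import Mathlib

set_option autoImplicit false

namespace Pool.Agent.Results.MP_50e72c_co.NoOptimalContainsMinLazy

/-- A hypergraph on the vertex set `V`: a finite collection (repetitions allowed) of edges,
each a finite set of vertices. -/
structure Hypergraph (V : Type) where
  edges : Multiset (Finset V)

/-- The unburned vertex `v` catches fire from the burned set `B`: some edge `e` with at least two
vertices contains `v`, and all other vertices of `e` lie in `B`. -/
def CatchesFire {V : Type} (H : Hypergraph V) (B : Set V) (v : V) : Prop :=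
  v ∉ B ∧ ∃ e ∈ H.edges, 2 ≤ e.card ∧ v ∈ e ∧ ∀ w ∈ e, w ≠ v → w ∈ B

/-- `burned H u r` is the set `F_r` of vertices burned at the end of round `r`, when the source set
on fire in round `i + 1` is `u i`. -/
def burned {V : Type} (H : Hypergraph V) {k : ℕ} (u : Fin k → V) : ℕ → Set V
  | 0 => ∅
  | r + 1 => burned H u r ∪ {v | CatchesFire H (burned H u r) v} ∪ {v | ∃ h : r < k, v = u ⟨r, h⟩}

/-- `u` is a burning sequence of length `k`: every source is unburned at the end of the previous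
round, and all vertices are burned at the end of round `k`. -/
def IsBurningSequence {V : Type} (H : Hypergraph V) {k : ℕ} (u : Fin k → V) : Prop :=
  (∀ i : Fin k, u i ∉ burned H u i) ∧ burned H u k = Set.univ

/-- `u` is an optimal burning sequence: a burning sequence of smallest length. -/
def IsOptimalBurningSequence {V : Type} (H : Hypergraph V) {k : ℕ} (u : Fin k → V) : Prop :=
  IsBurningSequence H u ∧ ∀ (l : ℕ) (w : Fin l → V), IsBurningSequence H w → k ≤ l

/-- The vertices burned by the lazy process started from `S`. -/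
inductive LazyBurned {V : Type} (H : Hypergraph V) (S : Set V) : V → Prop
  | start (v : V) : v ∈ S → LazyBurned H S v
  | spread (v : V) (e : Finset V) : e ∈ H.edges → 2 ≤ e.card → v ∈ e →
      (∀ w ∈ e, w ≠ v → LazyBurned H S w) → LazyBurned H S v

/-- `S` is a lazy burning set: the lazy process from `S` burns every vertex. -/
def IsLazyBurningSet {V : Type} (H : Hypergraph V) (S : Finset V) : Prop :=
  ∀ v, LazyBurned H (↑S) v

/-- `S` is a lazy burning set of smallest size. -/
def IsMinimumLazyBurningSet {V : Type} (H : Hypergraph V) (S : Finset V) : Prop :=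
  IsLazyBurningSet H S ∧ ∀ T : Finset V, IsLazyBurningSet H T → S.card ≤ T.card

/-- every edge has exactly `m` vertices -/
def Uniform {V : Type} (H : Hypergraph V) (m : ℕ) : Prop := ∀ e ∈ H.edges, e.card = m

/-- any two vertices are joined by a walk whose consecutive vertices lie in a common edge -/
def Connected {V : Type} (H : Hypergraph V) : Prop :=
  ∀ a b : V, Relation.ReflTransGen (fun x y => ∃ e ∈ H.edges, x ∈ e ∧ y ∈ e) a b

/-! ### The example -/

/-- the edges of the example as triples -/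
def triples : List (Fin 9 × Fin 9 × Fin 9) :=
  [(4, 6, 7), (0, 1, 7), (0, 4, 6), (1, 4, 5), (0, 2, 3), (1, 3, 5), (2, 5, 8)]

/-- the edge belonging to a triple -/
def toEdge (t : Fin 9 × Fin 9 × Fin 9) : Finset (Fin 9) := {t.1, t.2.1, t.2.2}

/-- the example -/
def H9 : Hypergraph (Fin 9) := ⟨(triples.map toEdge : List (Finset (Fin 9)))⟩

theorem mem_edges {e : Finset (Fin 9)} : e ∈ H9.edges ↔ ∃ t ∈ triples, toEdge t = e := by
  simp [H9]

theorem triples_distinct : ∀ t ∈ triples, t.1 ≠ t.2.1 ∧ t.1 ≠ t.2.2 ∧ t.2.1 ≠ t.2.2 := by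
  decide +kernel

theorem toEdge_card {t : Fin 9 × Fin 9 × Fin 9} (ht : t ∈ triples) : (toEdge t).card = 3 := by
  obtain ⟨h1, h2, h3⟩ := triples_distinct t ht
  exact Finset.card_eq_three.2 ⟨_, _, _, h1, h2, h3, rfl⟩

/-- spreading through one triple -/
def Rule (t : Fin 9 × Fin 9 × Fin 9) (P : Fin 9 → Prop) (v : Fin 9) : Prop :=
  (v = t.2.2 ∧ P t.1 ∧ P t.2.1) ∨ (v = t.2.1 ∧ P t.1 ∧ P t.2.2) ∨ (v = t.1 ∧ P t.2.1 ∧ P t.2.2)

theorem rule_iff {t : Fin 9 × Fin 9 × Fin 9} (ht : t ∈ triples) (P : Fin 9 → Prop) (v : Fin 9) :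
    (v ∈ toEdge t ∧ ∀ w ∈ toEdge t, w ≠ v → P w) ↔ Rule t P v := by
  obtain ⟨h1, h2, h3⟩ := triples_distinct t ht
  obtain ⟨a, b, c⟩ := t
  simp only at h1 h2 h3
  simp only [toEdge, Finset.mem_insert, Finset.mem_singleton, Rule]
  constructor
  · rintro ⟨rfl | rfl | rfl, h⟩
    · exact Or.inr (Or.inr ⟨rfl, h _ (by simp) (Ne.symm h1), h _ (by simp) (Ne.symm h2)⟩)
    · exact Or.inr (Or.inl ⟨rfl, h _ (by simp) h1, h _ (by simp) (Ne.symm h3)⟩)
    · exact Or.inl ⟨rfl, h _ (by simp) h2, h _ (by simp) h3⟩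
  · rintro (⟨rfl, h4, h5⟩ | ⟨rfl, h4, h5⟩ | ⟨rfl, h4, h5⟩)
    · refine ⟨by simp, ?_⟩
      rintro w (rfl | rfl | rfl) hw
      · exact h4
      · exact h5
      · exact (hw rfl).elim
    · refine ⟨by simp, ?_⟩
      rintro w (rfl | rfl | rfl) hw
      · exact h4
      · exact (hw rfl).elim
      · exact h5
    · refine ⟨by simp, ?_⟩
      rintro w (rfl | rfl | rfl) hw
      · exact (hw rfl).elim
      · exact h4
      · exact h5

theorem fire_iff (P : Fin 9 → Prop) (v : Fin 9) :
    (∃ e ∈ H9.edges, 2 ≤ e.card ∧ v ∈ e ∧ ∀ w ∈ e, w ≠ v → P w) ↔ ∃ t ∈ triples, Rule t P v := by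
  constructor
  · rintro ⟨e, he, -, h⟩
    obtain ⟨t, ht, rfl⟩ := mem_edges.1 he
    exact ⟨t, ht, (rule_iff ht P v).1 h⟩
  · rintro ⟨t, ht, h⟩
    refine ⟨toEdge t, mem_edges.2 ⟨t, ht, rfl⟩, ?_, (rule_iff ht P v).2 h⟩
    rw [toEdge_card ht]; norm_num

/-- bit masks: one triple -/
def apply1 (B acc : ℕ) (t : Fin 9 × Fin 9 × Fin 9) : ℕ :=
  acc ||| (if B.testBit t.1 && B.testBit t.2.1 then 1 <<< t.2.2.val else 0)
      ||| (if B.testBit t.1 && B.testBit t.2.2 then 1 <<< t.2.1.val else 0)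
      ||| (if B.testBit t.2.1 && B.testBit t.2.2 then 1 <<< t.1.val else 0)

/-- bit masks: burned set after one more round of spreading -/
def stepMask (B : ℕ) : ℕ := triples.foldl (apply1 B) B

theorem testBit_one_shiftLeft (a v : ℕ) : (1 <<< a).testBit v = true ↔ v = a := by
  rw [Nat.one_shiftLeft, Nat.testBit_two_pow]
  simp [eq_comm]

theorem apply1_spec (B acc : ℕ) (t : Fin 9 × Fin 9 × Fin 9) (v : Fin 9) :
    (apply1 B acc t).testBit v = true ↔
      acc.testBit v = true ∨ Rule t (fun w => B.testBit w = true) v := by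
  have key : ∀ (c : Bool) (a : Fin 9),
      ((if c = true then 1 <<< a.val else 0 : ℕ).testBit v = true ↔ (v = a ∧ c = true)) := by
    intro c a
    cases c
    · simp
    · simp only [if_true, testBit_one_shiftLeft]
      simp [Fin.ext_iff]
  rw [apply1, Nat.testBit_lor, Nat.testBit_lor, Nat.testBit_lor, Bool.or_eq_true, Bool.or_eq_true,
    Bool.or_eq_true, key, key, key, Bool.and_eq_true, Bool.and_eq_true, Bool.and_eq_true, Rule]
  tauto

theorem foldl_spec (B : ℕ) (v : Fin 9) (L : List (Fin 9 × Fin 9 × Fin 9)) : ∀ acc : ℕ,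
    (L.foldl (apply1 B) acc).testBit v = true ↔
      acc.testBit v = true ∨ ∃ t ∈ L, Rule t (fun w => B.testBit w = true) v := by
  induction L with
  | nil => intro acc; simp
  | cons t L ih =>
    intro acc
    rw [List.foldl_cons, ih, apply1_spec]
    simp only [List.mem_cons, exists_eq_or_imp]
    tauto

theorem stepMask_spec (B : ℕ) (v : Fin 9) :
    (stepMask B).testBit v = true ↔
      B.testBit v = true ∨ ∃ t ∈ triples, Rule t (fun w => B.testBit w = true) v :=
  foldl_spec B v triples B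

/-- mask of the burned set -/
def M {k : ℕ} (u : Fin k → Fin 9) : ℕ → ℕ
  | 0 => 0
  | r + 1 => stepMask (M u r) ||| (if h : r < k then 1 <<< (u ⟨r, h⟩).val else 0)

/-- mask of the sources used so far -/
def S {k : ℕ} (u : Fin k → Fin 9) : ℕ → ℕ
  | 0 => 0
  | r + 1 => S u r ||| (if h : r < k then 1 <<< (u ⟨r, h⟩).val else 0)

theorem dite_testBit {k r : ℕ} (u : Fin k → Fin 9) (v : Fin 9) :
    (if h : r < k then 1 <<< (u ⟨r, h⟩).val else 0 : ℕ).testBit v = true ↔
      ∃ h : r < k, v = u ⟨r, h⟩ := by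
  by_cases h : r < k
  · simp only [h, dite_true, testBit_one_shiftLeft, exists_true_left, Fin.ext_iff]
  · simp [h]

theorem M_spec {k : ℕ} (u : Fin k → Fin 9) (r : ℕ) : ∀ v : Fin 9,
    (M u r).testBit v = true ↔ v ∈ burned H9 u r := by
  induction r with
  | zero => intro v; simp [M, burned]
  | succ r ih =>
    intro v
    have hP : (fun w : Fin 9 => (M u r).testBit w = true) = fun w => w ∈ burned H9 u r := by
      funext w; exact propext (ih w)
    have h1 : v ∈ {x | CatchesFire H9 (burned H9 u r) x} ↔ (v ∉ burned H9 u r ∧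
      ∃ e ∈ H9.edges, 2 ≤ e.card ∧ v ∈ e ∧ ∀ w ∈ e, w ≠ v → w ∈ burned H9 u r) := Iff.rfl
    have h2 : v ∈ {v | ∃ h : r < k, v = u ⟨r, h⟩} ↔ ∃ h : r < k, v = u ⟨r, h⟩ := Iff.rfl
    rw [M, burned, Nat.testBit_lor, Bool.or_eq_true, stepMask_spec, dite_testBit,
      Set.mem_union, Set.mem_union, h1, h2, hP, ih v, ← fire_iff]
    by_cases hv : v ∈ burned H9 u r
    · simp [hv]
    · simp [hv]

theorem S_spec {k : ℕ} (u : Fin k → Fin 9) (r : ℕ) (hr : r ≤ k) : ∀ v : Fin 9,
    (S u r).testBit v = true ↔ ∃ i : Fin k, i.val < r ∧ v = u i := by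
  induction r with
  | zero => intro v; simp [S]
  | succ r ih =>
    intro v
    rw [S, Nat.testBit_lor, Bool.or_eq_true, dite_testBit, ih (by omega)]
    constructor
    · rintro (⟨i, hi, rfl⟩ | ⟨h, rfl⟩)
      · exact ⟨i, by omega, rfl⟩
      · exact ⟨⟨r, h⟩, by simp, rfl⟩
    · rintro ⟨i, hi, rfl⟩
      rcases Nat.lt_succ_iff_lt_or_eq.1 hi with h | h
      · exact Or.inl ⟨i, h, rfl⟩
      · subst h; exact Or.inr ⟨i.isLt, rfl⟩

/-- exhaustive search: every way to complete the sequence by `m` more sources that burns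
everything uses exactly the sources with mask `291`, i.e. `{0, 1, 5, 8}`. -/
def search : ℕ → ℕ → ℕ → Bool
  | 0, B, T => !((List.range 9).all fun v => B.testBit v) || T == 291
  | m + 1, B, T => (List.range 9).all fun v =>
      B.testBit v || search m (stepMask B ||| (1 <<< v)) (T ||| (1 <<< v))

theorem search_checks : ∀ k : Fin 5, search k.val 0 0 = true := by
  decide +kernel

theorem search_run {k : ℕ} (hk : search k 0 0 = true) (u : Fin k → Fin 9)
    (hu : IsBurningSequence H9 u) : ∀ r, r ≤ k → search (k - r) (M u r) (S u r) = true := by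
  intro r
  induction r with
  | zero => intro _; simpa [M, S] using hk
  | succ r ih =>
    intro hr
    have h1 := ih (by omega)
    have h2 : k - r = (k - (r + 1)) + 1 := by omega
    rw [h2, search, List.all_eq_true] at h1
    have hrk : r < k := by omega
    have h3 := h1 (u ⟨r, hrk⟩).val (by simp)
    have h4 : (M u r).testBit (u ⟨r, hrk⟩) = false := by
      rw [← Bool.not_eq_true, M_spec]
      exact hu.1 ⟨r, hrk⟩
    rw [h4, Bool.false_or] at h3
    simpa [M, S, hrk] using h3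

theorem sources_of_burning {k : ℕ} (hk : k ≤ 4) (u : Fin k → Fin 9)
    (hu : IsBurningSequence H9 u) : Set.range u = {v | v = 0 ∨ v = 1 ∨ v = 5 ∨ v = 8} := by
  have h1 := search_run (search_checks ⟨k, by omega⟩) u hu k le_rfl
  rw [Nat.sub_self, search] at h1
  have h2 : ((List.range 9).all fun v => (M u k).testBit v) = true := by
    rw [List.all_eq_true]
    intro v hv
    have hv' : v < 9 := by simpa using hv
    have := (M_spec u k ⟨v, hv'⟩).2 (by rw [hu.2]; trivial)
    simpa using this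
  rw [h2] at h1
  have h3 : S u k = 291 := by simpa using h1
  ext v
  have h4 := S_spec u k le_rfl v
  rw [h3] at h4
  have h5 : (Nat.testBit 291 v = true) ↔ (v = 0 ∨ v = 1 ∨ v = 5 ∨ v = 8) := by
    clear h4; revert v; decide
  have h6 : v ∈ ({v | v = 0 ∨ v = 1 ∨ v = 5 ∨ v = 8} : Set (Fin 9)) ↔
    (v = 0 ∨ v = 1 ∨ v = 5 ∨ v = 8) := Iff.rfl
  rw [Set.mem_range, h6, ← h5, h4]
  constructor
  · rintro ⟨i, rfl⟩; exact ⟨i, i.isLt, rfl⟩
  · rintro ⟨i, -, rfl⟩; exact ⟨i, rfl⟩

/-- the optimal burning sequence `1, 5, 0, 8` -/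
def u0 : Fin 4 → Fin 9 := ![1, 5, 0, 8]

theorem u0_burning : IsBurningSequence H9 u0 := by
  constructor
  · intro i
    rw [← M_spec]
    revert i
    decide +kernel
  · ext v
    rw [← M_spec]
    simp only [Set.mem_univ, iff_true]
    revert v
    decide +kernel

theorem four_le {k : ℕ} (u : Fin k → Fin 9) (hu : IsBurningSequence H9 u) : 4 ≤ k := by
  by_contra hlt
  have h := sources_of_burning (by omega) u hu
  have h1 : Set.range u = ↑(Finset.univ.image u) := by simp
  have h2 : ({v : Fin 9 | v = 0 ∨ v = 1 ∨ v = 5 ∨ v = 8} : Set (Fin 9)) =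
      ↑({0, 1, 5, 8} : Finset (Fin 9)) := by
    ext v; simp
  rw [h1, h2] at h
  have h3 : Finset.univ.image u = ({0, 1, 5, 8} : Finset (Fin 9)) := by exact_mod_cast h
  have h4 : (Finset.univ.image u).card ≤ k := by
    simpa using (Finset.card_image_le (s := (Finset.univ : Finset (Fin k))) (f := u))
  rw [h3] at h4
  have h5 : ({0, 1, 5, 8} : Finset (Fin 9)).card = 4 := by decide
  omega

theorem u0_optimal : IsOptimalBurningSequence H9 u0 :=
  ⟨u0_burning, fun _ w hw => four_le w hw⟩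

/-! ### lazy burning sets -/

theorem lazy_subset_closed {Sx : Set (Fin 9)} {C : Finset (Fin 9)} (hS : Sx ⊆ ↑C)
    (hC : ∀ e ∈ triples.map toEdge, ∀ v ∈ e, (∀ w ∈ e, w ≠ v → w ∈ C) → v ∈ C) (v : Fin 9)
    (hv : LazyBurned H9 Sx v) : v ∈ C := by
  induction hv with
  | start v h => exact hS h
  | spread v e he _ hve _ ih =>
    obtain ⟨t, ht, rfl⟩ := mem_edges.1 he
    exact hC _ (List.mem_map_of_mem ht) v hve ih

theorem closed_sets : ∀ C ∈ ([{0, 1, 7}, {0, 5}, {0, 8}, {1, 3, 4, 5}, {1, 8}, {2, 5, 8}] :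
    List (Finset (Fin 9))), ∀ e ∈ triples.map toEdge, ∀ v ∈ e,
      (∀ w ∈ e, w ≠ v → w ∈ C) → v ∈ C := by
  decide +kernel

theorem closed_sets_proper : ∀ C ∈ ([{0, 1, 7}, {0, 5}, {0, 8}, {1, 3, 4, 5}, {1, 8}, {2, 5, 8}] :
    List (Finset (Fin 9))), (6 : Fin 9) ∉ C := by
  decide +kernel

theorem small_subsets : ∀ T ∈ ({0, 1, 5, 8} : Finset (Fin 9)).powerset, T.card ≤ 2 →
    ∃ C ∈ ([{0, 1, 7}, {0, 5}, {0, 8}, {1, 3, 4, 5}, {1, 8}, {2, 5, 8}] :
      List (Finset (Fin 9))), T ⊆ C := by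
  decide +kernel

theorem edge_mem {t : Fin 9 × Fin 9 × Fin 9} (ht : t ∈ triples) : toEdge t ∈ H9.edges :=
  mem_edges.2 ⟨t, ht, rfl⟩

theorem lazy_step {Sx : Set (Fin 9)} {t : Fin 9 × Fin 9 × Fin 9} (ht : t ∈ triples) {v : Fin 9}
    (h : Rule t (LazyBurned H9 Sx) v) : LazyBurned H9 Sx v := by
  obtain ⟨h1, h2⟩ := (rule_iff ht _ v).2 h
  exact LazyBurned.spread v (toEdge t) (edge_mem ht) (by rw [toEdge_card ht]; norm_num) h1 h2

theorem lazy_04 : IsLazyBurningSet H9 {0, 4} := by
  have h0 : LazyBurned H9 (↑({0, 4} : Finset (Fin 9))) 0 := .start _ (by simp)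
  have h4 : LazyBurned H9 (↑({0, 4} : Finset (Fin 9))) 4 := .start _ (by simp)
  have h6 : LazyBurned H9 (↑({0, 4} : Finset (Fin 9))) 6 :=
    lazy_step (t := (0, 4, 6)) (by decide) (Or.inl ⟨rfl, h0, h4⟩)
  have h7 : LazyBurned H9 (↑({0, 4} : Finset (Fin 9))) 7 :=
    lazy_step (t := (4, 6, 7)) (by decide) (Or.inl ⟨rfl, h4, h6⟩)
  have h1 : LazyBurned H9 (↑({0, 4} : Finset (Fin 9))) 1 :=
    lazy_step (t := (0, 1, 7)) (by decide) (Or.inr (Or.inl ⟨rfl, h0, h7⟩))
  have h5 : LazyBurned H9 (↑({0, 4} : Finset (Fin 9))) 5 :=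
    lazy_step (t := (1, 4, 5)) (by decide) (Or.inl ⟨rfl, h1, h4⟩)
  have h3 : LazyBurned H9 (↑({0, 4} : Finset (Fin 9))) 3 :=
    lazy_step (t := (1, 3, 5)) (by decide) (Or.inr (Or.inl ⟨rfl, h1, h5⟩))
  have h2 : LazyBurned H9 (↑({0, 4} : Finset (Fin 9))) 2 :=
    lazy_step (t := (0, 2, 3)) (by decide) (Or.inr (Or.inl ⟨rfl, h0, h3⟩))
  have h8 : LazyBurned H9 (↑({0, 4} : Finset (Fin 9))) 8 :=
    lazy_step (t := (2, 5, 8)) (by decide) (Or.inl ⟨rfl, h2, h5⟩)
  intro v
  fin_cases v
  · exact h0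
  · exact h1
  · exact h2
  · exact h3
  · exact h4
  · exact h5
  · exact h6
  · exact h7
  · exact h8

theorem not_min_lazy {k : ℕ} (u : Fin k → Fin 9) (hu : IsOptimalBurningSequence H9 u)
    (T : Finset (Fin 9)) (hT : ↑T ⊆ Set.range u) : ¬ IsMinimumLazyBurningSet H9 T := by
  intro hmin
  have hk : k ≤ 4 := hu.2 4 u0 u0_burning
  have hr := sources_of_burning hk u hu.1
  have hcard : T.card ≤ 2 := by
    have := hmin.2 {0, 4} lazy_04
    have h2 : ({0, 4} : Finset (Fin 9)).card = 2 := by decide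
    omega
  have hsub : T ∈ ({0, 1, 5, 8} : Finset (Fin 9)).powerset := by
    rw [Finset.mem_powerset]
    intro v hv
    have h1 : v ∈ Set.range u := hT hv
    rw [hr] at h1
    simpa using h1
  obtain ⟨C, hC, hTC⟩ := small_subsets T hsub hcard
  have h6 := lazy_subset_closed (Sx := ↑T) (C := C) (by exact_mod_cast hTC)
    (closed_sets C hC) 6 (hmin.1 6)
  exact closed_sets_proper C hC h6

theorem H9_uniform : Uniform H9 3 := by
  intro e he
  obtain ⟨t, ht, rfl⟩ := mem_edges.1 he
  exact toEdge_card ht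

theorem H9_nodup : H9.edges.Nodup := by
  have : (triples.map toEdge).Nodup := by decide
  simpa [H9] using this

theorem H9_connected : Connected H9 := by
  have step : ∀ t ∈ triples, ∀ a b, a ∈ toEdge t → b ∈ toEdge t →
      Relation.ReflTransGen (fun x y => ∃ e ∈ H9.edges, x ∈ e ∧ y ∈ e) a b :=
    fun t ht a b ha hb => Relation.ReflTransGen.single ⟨toEdge t, edge_mem ht, ha, hb⟩
  have to0 : ∀ a, Relation.ReflTransGen (fun x y => ∃ e ∈ H9.edges, x ∈ e ∧ y ∈ e) a 0 ∧
      Relation.ReflTransGen (fun x y => ∃ e ∈ H9.edges, x ∈ e ∧ y ∈ e) 0 a := by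
    have h17 := fun a ha => step (0, 1, 7) (by decide) a 0 ha (by decide)
    have h46 := fun a ha => step (0, 4, 6) (by decide) a 0 ha (by decide)
    have h23 := fun a ha => step (0, 2, 3) (by decide) a 0 ha (by decide)
    have h17' := fun a ha => step (0, 1, 7) (by decide) 0 a (by decide) ha
    have h46' := fun a ha => step (0, 4, 6) (by decide) 0 a (by decide) ha
    have h23' := fun a ha => step (0, 2, 3) (by decide) 0 a (by decide) ha
    intro a
    fin_cases a
    · exact ⟨Relation.ReflTransGen.refl, Relation.ReflTransGen.refl⟩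
    · exact ⟨h17 _ (by decide), h17' _ (by decide)⟩
    · exact ⟨h23 _ (by decide), h23' _ (by decide)⟩
    · exact ⟨h23 _ (by decide), h23' _ (by decide)⟩
    · exact ⟨h46 _ (by decide), h46' _ (by decide)⟩
    · exact ⟨(step (1, 4, 5) (by decide) 5 1 (by decide) (by decide)).trans (h17 _ (by decide)),
        (h17' 1 (by decide)).trans (step (1, 4, 5) (by decide) 1 5 (by decide) (by decide))⟩
    · exact ⟨h46 _ (by decide), h46' _ (by decide)⟩
    · exact ⟨h17 _ (by decide), h17' _ (by decide)⟩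
    · exact ⟨(step (2, 5, 8) (by decide) 8 2 (by decide) (by decide)).trans (h23 _ (by decide)),
        (h23' 2 (by decide)).trans (step (2, 5, 8) (by decide) 2 8 (by decide) (by decide))⟩
  exact fun a b => (to0 a).1.trans (to0 b).2

/-- There is a connected 3-uniform hypergraph without repeated edges, on 9 vertices, that has an
optimal burning sequence, and no optimal burning sequence of which contains a minimum lazy burning
set among its sources. -/
theorem result : ∃ H : Hypergraph (Fin 9), Connected H ∧ Uniform H 3 ∧ H.edges.Nodup ∧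
    (∃ (k : ℕ) (u : Fin k → Fin 9), IsOptimalBurningSequence H u) ∧
    ∀ (k : ℕ) (u : Fin k → Fin 9), IsOptimalBurningSequence H u →
      ∀ S : Finset (Fin 9), ↑S ⊆ Set.range u → ¬ IsMinimumLazyBurningSet H S :=
  ⟨H9, H9_connected, H9_uniform, H9_nodup, ⟨4, u0, u0_optimal⟩,
    fun _ u hu S hS => not_min_lazy u hu S hS⟩

end Pool.Agent.Results.MP_50e72c_co.NoOptimalContainsMinLazy
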